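import Pool.Agent.Helper5.FRC.Defs

/-! Packet FRC-SHIFT (MP_79b960_co): moving the fixed point of the pairing of an odd circuit. -/

set_option autoImplicit false

namespace Pool.Agent.Helper34.FRC.SHIFT

open Finset
open Pool.Agent.Helper5.FRC

variable {V : Type} [DecidableEq V]

omit [DecidableEq V] in
lemma n_ne {n : Equiv.Perm V} {C : Finset V} (hC : Cir n C) (h1 : 1 < C.card) {v : V}
    (hv : v ∈ C) : n v ≠ v := by
  intro h
  have h2 : ({v} : Finset V) = C := by
    refine hC.2.2 {v} (singleton_subset_iff.2 hv) (singleton_nonempty v) ?_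
    intro x hx
    rw [mem_singleton] at hx
    rw [hx, h, mem_singleton]
  rw [← h2, card_singleton] at h1
  exact lt_irrefl _ h1

lemma nn_ne {n : Equiv.Perm V} {C : Finset V} (hC : Cir n C) (ho : Odd C.card)
    (h1 : 1 < C.card) {v : V} (hv : v ∈ C) : n (n v) ≠ v := by
  intro h
  have h2 : ({v, n v} : Finset V) = C := by
    refine hC.2.2 {v, n v} ?_ (insert_nonempty _ _) ?_
    · intro x hx
      rcases mem_insert.1 hx with hx | hx
      · rw [hx]; exact hv
      · rw [mem_singleton.1 hx]; exact hC.2.1 v hv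
    · intro x hx
      rcases mem_insert.1 hx with hx | hx
      · rw [hx]; exact mem_insert_of_mem (mem_singleton_self _)
      · rw [mem_singleton.1 hx, h]; exact mem_insert_self _ _
  rw [← h2, card_pair (n_ne hC h1 hv).symm] at ho
  exact absurd ho (by decide)

theorem t : ShiftStmt := by
  intro V _ _ n C hC ho h1 p hp q hq
  have hs : n p ∈ C := hC.2.1 p hp
  have hr : n (n p) ∈ C := hC.2.1 _ hs
  have hsp : n p ≠ p := n_ne hC h1 hp
  have hrs : n (n p) ≠ n p := n_ne hC h1 hs
  have hrp : n (n p) ≠ p := nn_ne hC ho h1 hp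
  have hqp : q p = p := (hq p hp).2.2.2.2 rfl
  have hqs : q (n p) = n (n p) := by
    obtain ⟨-, h3, h4, h5⟩ := hq _ hs
    rcases h4 with h4 | h4 | h4
    · exact absurd (h5.1 h4) hsp
    · exact h4
    · have h6 : q (n p) = p := n.injective h4
      rw [h6, hqp] at h3
      exact absurd h3.symm hsp
  have hqr : q (n (n p)) = n p := by
    have h3 := (hq _ hs).2.1
    rw [hqs] at h3
    exact h3
  refine ⟨hqs, hqr, hsp, hrp, ?_⟩
  intro x hx
  by_cases hxp : x = p
  · subst hxp
    simp only [if_true, if_neg hsp]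
    refine ⟨hs, trivial, Or.inr (Or.inl trivial), ?_⟩
    exact ⟨fun h => absurd h hsp, fun h => absurd h.symm hrp⟩
  by_cases hxs : x = n p
  · subst hxs
    simp only [if_true, if_neg hsp]
    refine ⟨hp, trivial, Or.inr (Or.inr trivial), ?_⟩
    exact ⟨fun h => absurd h.symm hsp, fun h => absurd h.symm hrs⟩
  by_cases hxr : x = n (n p)
  · subst hxr
    simp only [if_true, if_neg hrp, if_neg hrs]
    exact ⟨hr, trivial, Or.inl trivial, trivial⟩
  obtain ⟨h2, h3, h4, h5⟩ := hq x hx
  have e1 : q x ≠ p := by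
    intro h
    rw [h, hqp] at h3
    exact hxp h3.symm
  have e2 : q x ≠ n p := by
    intro h
    rw [h, hqs] at h3
    exact hxr h3.symm
  have e3 : q x ≠ n (n p) := by
    intro h
    rw [h, hqr] at h3
    exact hxs h3.symm
  simp only [if_neg hxp, if_neg hxs, if_neg hxr, if_neg e1, if_neg e2, if_neg e3]
  refine ⟨h2, h3, h4, fun h => absurd (h5.1 h) hxp, fun h => absurd h hxr⟩

end Pool.Agent.Helper34.FRC.SHIFT
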